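import Pool.Agent.W800.NS.Part1

set_option autoImplicit false
open MeasureTheory Filter Topology Set
open scoped ContDiff

namespace Pool.Agent.Results.MP_ad2fa1_an.EveryNonlinearity

open Pool.Agent.W800.NS

/-- Let `k ≥ 2` and `p(r) = r^{2(k-1)}`, `N = 0`. Then (i) `q(s) = s(1-s)` on `(0,1]` (smoothly cut
off for `s > 1`) satisfies (H1)-(H8) together with `p`, even with the strict form of (H7), and
`g` is smooth; (ii) for EVERY `q` such that (H1)-(H8) hold with `p` and for every `m < 0` the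
equation has a negative solution `u` of class `C²` on the whole plane (`C^∞` if `g` is) with
maximum `m`, which is not radially symmetric about any point of the plane. -/
theorem result : ∀ k : ℕ, 2 ≤ k →
    (Hyp (pw (2 * ((k : ℝ) - 1))) qCS ∧ StrictH7 qCS ∧ ContDiff ℝ ∞ (gOf qCS) ∧
      ∀ s ∈ Ioc (0 : ℝ) 1, qCS s = s * (1 - s)) ∧
    ∀ q : ℝ → ℝ, Hyp (pw (2 * ((k : ℝ) - 1))) q → ∀ m < 0,
      ∃ u : Plane → ℝ, ContDiff ℝ 2 u ∧ (ContDiff ℝ ∞ (gOf q) → ContDiff ℝ ∞ u) ∧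
        IsNegSol 2 0 (pw (2 * ((k : ℝ) - 1))) q u ∧ (∀ x, u x ≤ m) ∧ (∃ x, u x = m) ∧
        ∀ c : Plane, ¬ RadialAbout c u := by
  intro k hk
  have hkp : (2 : ℝ) ≤ k := by exact_mod_cast hk
  refine ⟨⟨?_, strict_CS, contDiff_gCS, ?_⟩, ?_⟩
  · have h := hyp_qCS (a := 2 * (k : ℝ)) (by linarith)
    have e : 2 * (k : ℝ) - 2 = 2 * ((k : ℝ) - 1) := by ring
    rwa [e] at h
  · intro s hs
    unfold qCS
    rw [Real.smoothTransition.one_of_one_le, mul_one]
    have := Real.log_nonpos hs.1.le hs.2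
    linarith
  · intro q hq m hm
    obtain ⟨C, hC⟩ := hq.H1sup
    obtain ⟨u, h1, h2, h3, h4, h5⟩ := part2 hk hq.H1g hC hq.H2gpos hm
    refine ⟨u, h1, h2, h3, h4, ⟨ptc 1, ?_⟩, not_radial_of_roots hk h5⟩
    rw [h5, cz_ptc, one_pow]

end Pool.Agent.Results.MP_ad2fa1_an.EveryNonlinearity
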