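import Pool.Agent.W800.NS.Part1

set_option autoImplicit false
open MeasureTheory Filter Topology Set
open scoped ContDiff

namespace Pool.Agent.Results.MP_ad2fa1_an.PointSource

open Pool.Agent.W800.NS

/-- For every real `N ≥ 0` and every integer `k ≥ 1` with `k > N`, the pair `p(r) = r^{2(k-N)-2}`
(so `p = 1` when `N = k - 1`), `q = qL` satisfies (H1)-(H8), and
`Δu + p(|x|) q(e^u) = 4πN δ` has a negative solution, smooth off the origin, which is not
radially symmetric about the origin. -/
theorem result : ∀ (N : ℝ) (k : ℕ), 0 ≤ N → 1 ≤ k → N < k →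
    Hyp (pw (2 * ((k : ℝ) - N) - 2)) qL ∧
      ∃ u : Plane → ℝ, IsNegSol ∞ N (pw (2 * ((k : ℝ) - N) - 2)) qL u ∧ ¬ RadialAbout 0 u := by
  intro N k hN hk hNk
  exact ⟨hyp_qL (by linarith), part1 hN hk hNk⟩

end Pool.Agent.Results.MP_ad2fa1_an.PointSource
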